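import Pool.Agent.Helper83.Transport

/-!
# The directions of the sides are locked near a Lyapunov stable orbit of the planar `n`-body problem

Let `x` be a periodic solution of the planar `n`-body problem (every relative periodic solution with
a Lyapunov stable orbit is one), of period `P`, and let `2 π k a b` be the angle by which the side
`q_a - q_b` turns in the time `P`.  If the orbit of `x` is Lyapunov stable in the centre of mass
frame, then for all solutions `y` that start near the orbit, periodic or not, the vector of the angles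
by which the sides have turned stays, for all times `t ≥ 0`, within a fixed distance of the line
spanned by the integer vector `k`: every integer relation between the winding numbers of the sides
along the stable orbit holds for all solutions near it up to a bounded error.  Moreover the vector
moves along this line with nearly the same mean rate as for `x`.  In particular the mean rates at
which the sides of the solutions near the orbit turn, where they exist, always have the same rational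
ratios: an orbit that is the limit of quasi-periodic solutions with other ratios is not stable.

Idea.  For integers `l₁`, `l₂` with `l₁ k a b + l₂ k c d = 0` the function
`(direction of q_a - q_b) ^ l₁ * (direction of q_c - q_d) ^ l₂` on the collision-free phase space has
a continuous logarithm along the orbit, which extends to a neighbourhood (uniqueness of solutions,
compactness and Tietze's theorem); solutions which stay in the neighbourhood cannot wind.  The rate is
compared during one period (Gronwall's inequality), starting again from the orbit in each period.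
-/

set_option autoImplicit false

namespace Pool.Agent.Results.MP_5027f4_mp.LockedSides

open Complex Set Filter Topology

/-- Phase points of `n` bodies in the plane `ℂ`: positions and velocities (product topology). -/
abbrev Ph (n : ℕ) := (Fin n → ℂ) × (Fin n → ℂ)

/-- Newtonian acceleration of body `a`: `∑_{b ≠ a} m_b (q_b - q_a) / |q_b - q_a|^3`. -/
noncomputable def acc {n : ℕ} (m : Fin n → ℝ) (q : Fin n → ℂ) (a : Fin n) : ℂ :=
  ∑ b ∈ Finset.univ.erase a, ((m b / ‖q b - q a‖ ^ 3 : ℝ) : ℂ) * (q b - q a)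

/-- The phase space in the centre of mass frame: no collisions, `∑ m_a q_a = 0`, `∑ m_a v_a = 0`. -/
def phaseSpace {n : ℕ} (m : Fin n → ℝ) : Set (Ph n) :=
  {z | (∀ a b, a ≠ b → z.1 a ≠ z.1 b) ∧ ∑ a, (m a : ℂ) * z.1 a = 0 ∧ ∑ a, (m a : ℂ) * z.2 a = 0}

/-- `x = (q, v)` is a solution of Newton's equations on the time set `J`, in the centre of mass frame. -/
def IsSol {n : ℕ} (m : Fin n → ℝ) (J : Set ℝ) (x : ℝ → Ph n) : Prop :=
  ∀ t ∈ J, x t ∈ phaseSpace m ∧ HasDerivWithinAt x ((x t).2, acc m (x t).1) J t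

/-- Lyapunov stability of an orbit `γ` in the centre of mass frame: for every neighbourhood `U₁` there is
a neighbourhood `U₂` such that every solution on `[0, ∞)` that starts in `U₂` stays in `U₁`. -/
def LyapunovStable {n : ℕ} (m : Fin n → ℝ) (γ : Set (Ph n)) : Prop :=
  ∀ U₁ : Set (Ph n), IsOpen U₁ → γ ⊆ U₁ → ∃ U₂ : Set (Ph n), IsOpen U₂ ∧ γ ⊆ U₂ ∧
    ∀ y : ℝ → Ph n, IsSol m (Set.Ici 0) y → y 0 ∈ U₂ → ∀ t : ℝ, 0 ≤ t → y t ∈ U₁

/-- `ψ` is a continuous choice, on the time set `J`, of the angle of the side `q_a - q_b` of `y`. -/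
def IsAngle {n : ℕ} (y : ℝ → Ph n) (J : Set ℝ) (a b : Fin n) (ψ : ℝ → ℝ) : Prop :=
  ContinuousOn ψ J ∧ ∀ t ∈ J, (y t).1 a - (y t).1 b =
    ‖(y t).1 a - (y t).1 b‖ * Complex.exp (ψ t * I)

/-- A continuous real function on a connected set of times with `exp (i f) = 1` is constant. -/
theorem const_of_exp {S : Set ℝ} (hS : IsPreconnected S) {f : ℝ → ℝ} (hf : ContinuousOn f S)
    (h : ∀ t ∈ S, Complex.exp ((f t : ℂ) * I) = 1) {s t : ℝ} (hs : s ∈ S) (ht : t ∈ S) :
    f s = f t := by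
  have main : ∀ s t : ℝ, s ∈ S → t ∈ S → ¬ f s < f t := by
    intro s t hs ht hlt
    obtain ⟨i, hi⟩ := Complex.exp_eq_one_iff.1 (h s hs)
    obtain ⟨j, hj⟩ := Complex.exp_eq_one_iff.1 (h t ht)
    have hi' : f s = i * (2 * Real.pi) := by
      have : (f s : ℂ) = (i * (2 * Real.pi) : ℝ) := by
        have hI : (I : ℂ) ≠ 0 := I_ne_zero
        apply mul_right_cancel₀ hI
        rw [hi]; push_cast; ring
      exact_mod_cast this
    have hj' : f t = j * (2 * Real.pi) := by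
      have : (f t : ℂ) = (j * (2 * Real.pi) : ℝ) := by
        have hI : (I : ℂ) ≠ 0 := I_ne_zero
        apply mul_right_cancel₀ hI
        rw [hj]; push_cast; ring
      exact_mod_cast this
    have hpi := Real.pi_pos
    have hij : i < j := by
      by_contra hcon
      have hcon' : (j : ℝ) ≤ i := by exact_mod_cast not_lt.1 hcon
      rw [hi', hj'] at hlt
      nlinarith
    have hij' : (i : ℝ) + 1 ≤ j := by exact_mod_cast hij
    have hmem : f s + Real.pi ∈ Icc (f s) (f t) := by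
      constructor
      · linarith
      · rw [hi', hj']; nlinarith
    obtain ⟨r, hr, hfr⟩ := hS.intermediate_value hs ht hf hmem
    have h1 := h r hr
    rw [hfr] at h1
    push_cast at h1
    rw [add_mul, Complex.exp_add, h s hs, Complex.exp_pi_mul_I, one_mul] at h1
    norm_num at h1
  exact le_antisymm (not_lt.1 (main t s ht hs)) (not_lt.1 (main s t hs ht))

/-- The topological part. -/
theorem no_winding {Z : Type*} [MetricSpace Z] {x : ℝ → Z} (hx : Continuous x) {P : ℝ} (hP : 0 < P)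
    (hper : ∀ t, x (t + P) = x t) {O : Set Z} (hO : IsOpen O) (hxO : ∀ t, x t ∈ O) {u : Z → ℂ}
    (hu : ContinuousOn u O) {φ : ℝ → ℝ} (hφ : Continuous φ)
    (huφ : ∀ t, u (x t) = Complex.exp ((φ t : ℂ) * I))
    (hinj : ∀ s s', x s = x s' → φ s = φ s') :
    ∃ N : Set Z, IsOpen N ∧ Set.range x ⊆ N ∧ ∃ C : ℝ, 0 ≤ C ∧ ∀ y : ℝ → Z, ContinuousOn y (Ici 0) →
      (∀ t, 0 ≤ t → y t ∈ N) → ∀ θ : ℝ → ℝ, ContinuousOn θ (Ici 0) →
      (∀ t, 0 ≤ t → u (y t) = Complex.exp ((θ t : ℂ) * I)) → ∀ t, 0 ≤ t → |θ t - θ 0| ≤ C := by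
  classical
  -- the function on the orbit
  have hsurj0 : ∀ z : Set.range x, ∃ s : Icc (0 : ℝ) P, x s = z := by
    rintro ⟨z, t, rfl⟩
    obtain ⟨s, hs, hst⟩ := Function.Periodic.exists_mem_Ico₀ (f := x) (c := P) hper hP t
    exact ⟨⟨s, hs.1, hs.2.le⟩, hst.symm⟩
  let f : Icc (0 : ℝ) P → Set.range x := fun s => ⟨x s, ⟨s, rfl⟩⟩
  have hfc : Continuous f := by
    refine Continuous.subtype_mk (hx.comp continuous_subtype_val) _
  have hfs : Function.Surjective f := fun z => by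
    obtain ⟨s, hs⟩ := hsurj0 z
    exact ⟨s, Subtype.ext hs⟩
  have hq : IsQuotientMap f := IsQuotientMap.of_surjective_continuous hfs hfc
  let Φ : Set.range x → ℝ := fun z => φ (Classical.choose z.2)
  have hΦx : ∀ t, Φ ⟨x t, ⟨t, rfl⟩⟩ = φ t := fun t => by
    have h1 : x (Classical.choose (⟨t, rfl⟩ : x t ∈ Set.range x)) = x t :=
      Classical.choose_spec (⟨t, rfl⟩ : x t ∈ Set.range x)
    exact hinj _ _ h1
  have hΦc : Continuous Φ := by
    rw [hq.continuous_iff]
    have : Φ ∘ f = fun s : Icc (0 : ℝ) P => φ s := by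
      funext s
      exact hΦx s
    rw [this]
    exact hφ.comp continuous_subtype_val
  have hKc : IsCompact (Set.range x) := by
    have : Set.range x = x '' Icc (0 : ℝ) P := by
      ext z
      constructor
      · intro hz
        obtain ⟨s, hs⟩ := hsurj0 ⟨z, hz⟩
        exact ⟨s, s.2, hs⟩
      · rintro ⟨s, -, rfl⟩
        exact ⟨s, rfl⟩
    rw [this]
    exact isCompact_Icc.image hx
  obtain ⟨Ψ, hΨ⟩ := ContinuousMap.exists_restrict_eq hKc.isClosed (⟨Φ, hΦc⟩ : C(Set.range x, ℝ))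
  have hΨx : ∀ t, Ψ (x t) = φ t := fun t => by
    have := DFunLike.congr_fun hΨ ⟨x t, ⟨t, rfl⟩⟩
    rw [← hΦx t]
    exact this
  obtain ⟨M, hM⟩ := hKc.exists_bound_of_continuousOn (Ψ.continuous.continuousOn)
  have hM0 : 0 ≤ M := (norm_nonneg _).trans (hM (x 0) ⟨0, rfl⟩)
  let v : Z → ℂ := fun z => u z * Complex.exp ((-(Ψ z) : ℂ) * I)
  have hvc : ContinuousOn v O := by
    refine hu.mul (Continuous.continuousOn ?_)
    have := Ψ.continuous
    fun_prop
  have hv1 : ∀ t, v (x t) = 1 := fun t => by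
    simp only [v]
    rw [huφ, hΨx, ← Complex.exp_add]
    ring_nf
    simp
  refine ⟨(O ∩ v ⁻¹' Metric.ball 1 1) ∩ Ψ ⁻¹' Metric.ball 0 (M + 1),
    (hvc.isOpen_inter_preimage hO Metric.isOpen_ball).inter
      (Metric.isOpen_ball.preimage Ψ.continuous), ?_, 2 * (M + 1) + 2 * Real.pi, ?_, ?_⟩
  · rintro z ⟨t, rfl⟩
    refine ⟨⟨hxO t, ?_⟩, ?_⟩
    · rw [mem_preimage, hv1]; simp
    · rw [mem_preimage, mem_ball_zero_iff]
      exact lt_of_le_of_lt (hM _ ⟨t, rfl⟩) (by linarith)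
  · have := Real.pi_pos
    linarith
  intro y hy hyN θ hθ huθ t ht
  have hvy : ∀ s, 0 ≤ s → v (y s) = Complex.exp (((θ s - Ψ (y s) : ℝ) : ℂ) * I) := by
    intro s hs
    simp only [v]
    rw [huθ s hs, ← Complex.exp_add]
    congr 1
    push_cast
    ring
  have hslit : ∀ s, 0 ≤ s → v (y s) ∈ Complex.slitPlane := by
    intro s hs
    have h1 := (hyN s hs).1.2
    rw [mem_preimage, mem_ball_iff_norm] at h1
    left
    have h2 := (Complex.abs_re_le_norm (v (y s) - 1)).trans_lt h1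
    rw [Complex.sub_re, Complex.one_re] at h2
    have := (abs_lt.1 h2).1
    linarith
  have hvcont : ContinuousOn (fun s => v (y s)) (Ici 0) :=
    hvc.comp hy fun s hs => (hyN s hs).1.1
  have hargc : ContinuousOn (fun s => Complex.arg (v (y s))) (Ici 0) := by
    intro s hs
    exact ContinuousAt.comp_continuousWithinAt (f := fun s => v (y s)) (g := Complex.arg)
      (Complex.continuousAt_arg (hslit s hs)) (hvcont s hs)
  have hfc' : ContinuousOn (fun s => θ s - Ψ (y s) - Complex.arg (v (y s))) (Ici 0) :=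
    (hθ.sub (Ψ.continuous.comp_continuousOn hy)).sub hargc
  have hexp : ∀ s ∈ Ici (0 : ℝ),
      Complex.exp (((θ s - Ψ (y s) - Complex.arg (v (y s)) : ℝ) : ℂ) * I) = 1 := by
    intro s hs
    have h1 := hvy s hs
    have hnorm : ‖v (y s)‖ = 1 := by rw [h1, Complex.norm_exp_ofReal_mul_I]
    have h2 : v (y s) = Complex.exp ((Complex.arg (v (y s)) : ℂ) * I) := by
      have := Complex.norm_mul_exp_arg_mul_I (v (y s))
      rw [hnorm, Complex.ofReal_one, one_mul] at this
      exact this.symm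
    have hne : Complex.exp ((Complex.arg (v (y s)) : ℂ) * I) ≠ 0 := Complex.exp_ne_zero _
    have h3 : (((θ s - Ψ (y s) - Complex.arg (v (y s)) : ℝ) : ℂ) * I) =
        ((θ s - Ψ (y s) : ℝ) : ℂ) * I - (Complex.arg (v (y s)) : ℂ) * I := by
      push_cast; ring
    rw [h3, Complex.exp_sub, ← h1, div_eq_one_iff_eq hne]
    exact h2
  have hconst := const_of_exp isPreconnected_Ici hfc' hexp (mem_Ici.2 ht) (mem_Ici.2 le_rfl)
  have hb : ∀ s, 0 ≤ s → |Ψ (y s)| ≤ M + 1 := fun s hs => by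
    have := (hyN s hs).2
    rw [mem_preimage, mem_ball_zero_iff] at this
    exact this.le
  have ha : ∀ s, |Complex.arg (v (y s))| ≤ Real.pi := fun s => Complex.abs_arg_le_pi _
  have e : θ t - θ 0 = (Ψ (y t) - Ψ (y 0)) + (Complex.arg (v (y t)) - Complex.arg (v (y 0))) := by
    linarith [hconst]
  rw [e]
  have b1 := hb t ht
  have b2 := hb 0 le_rfl
  have b3 := ha t
  have b4 := ha 0
  rw [abs_le] at b1 b2 b3 b4 ⊢
  constructor <;> linarith [b1.1, b1.2, b2.1, b2.2, b3.1, b3.2, b4.1, b4.2]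

/-- Along a periodic solution a continuous logarithm without winding only depends on the phase point. -/
theorem phase_inj {n : ℕ} {m : Fin n → ℝ} {x : ℝ → Ph n} (hx : IsSol m Set.univ x) {P : ℝ}
    (hP : 0 < P) {u : Ph n → ℂ} {φ : ℝ → ℝ} (hφ : Continuous φ)
    (hφP : ∀ t, φ (t + P) = φ t) (huφ : ∀ t, u (x t) = Complex.exp ((φ t : ℂ) * I)) :
    ∀ s s', x s = x s' → φ s = φ s' := by
  intro s s' hss
  set τ : ℝ := s' - s with hτ
  have hx' : Pool.Agent.W821.TB.IsSol m Set.univ x := hx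
  have hshift : (fun t => x (t + τ)) = x := by
    refine Pool.Agent.W821.TB.sol_unique (hx'.shift τ) hx' (t₀ := s) ?_
    simp only [hτ]
    rw [show s + (s' - s) = s' by ring]
    exact hss.symm
  have hxτ : ∀ t, x (t + τ) = x t := fun t => congrFun hshift t
  have hD : ∀ t, φ (t + τ) - φ t = φ (s + τ) - φ s := by
    intro t
    refine const_of_exp (f := fun t => φ (t + τ) - φ t) isPreconnected_univ
      (Continuous.continuousOn (by fun_prop)) ?_ (mem_univ _) (mem_univ _)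
    intro r _
    have h1 := huφ (r + τ)
    rw [hxτ, huφ r] at h1
    push_cast
    rw [sub_mul, Complex.exp_sub, ← h1, div_self (Complex.exp_ne_zero _)]
  set d : ℝ := φ (s + τ) - φ s with hd
  have hk : ∀ k : ℕ, φ (s + k * τ) = φ s + k * d := by
    intro k
    induction k with
    | zero => simp
    | succ k ih =>
      have := hD (s + k * τ)
      rw [show s + (k : ℝ) * τ + τ = s + ((k + 1 : ℕ) : ℝ) * τ by push_cast; ring] at this
      push_cast at this ⊢
      linarith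
  obtain ⟨M, hM⟩ := isCompact_Icc.exists_bound_of_continuousOn (s := Icc (0 : ℝ) P)
    (f := φ) hφ.continuousOn
  have hMall : ∀ t, |φ t| ≤ M := by
    intro t
    obtain ⟨r, hr, hrt⟩ := Function.Periodic.exists_mem_Ico₀ (f := φ) (c := P) hφP hP t
    rw [hrt]
    exact hM r ⟨hr.1, hr.2.le⟩
  have hd0 : d = 0 := by
    by_contra hne
    have hpos : 0 < |d| := abs_pos.2 hne
    obtain ⟨k, hk'⟩ := exists_nat_gt ((2 * M) / |d|)
    rw [div_lt_iff₀ hpos] at hk'
    have h1 := hMall (s + k * τ)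
    have h2 := hMall s
    rw [hk k] at h1
    have h3 : |(k : ℝ) * d| ≤ 2 * M := by
      have : (k : ℝ) * d = (φ s + k * d) - φ s := by ring
      rw [this]
      exact (abs_sub _ _).trans (by linarith)
    rw [abs_mul, Nat.abs_cast] at h3
    linarith
  have : φ (s + τ) = φ s' := by rw [hτ]; congr 1; ring
  rw [← this]
  linarith

/-- The direction of a side. -/
noncomputable def dir {n : ℕ} (a b : Fin n) (z : Ph n) : ℂ :=
  (z.1 a - z.1 b) / (‖z.1 a - z.1 b‖ : ℂ)

theorem dir_of_angle {n : ℕ} {y : ℝ → Ph n} {J : Set ℝ} {a b : Fin n} {ψ : ℝ → ℝ}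
    (h : IsAngle y J a b ψ) {t : ℝ} (ht : t ∈ J) (hne : (y t).1 a ≠ (y t).1 b) :
    dir a b (y t) = Complex.exp ((ψ t : ℂ) * I) := by
  unfold dir
  have hn : (‖(y t).1 a - (y t).1 b‖ : ℂ) ≠ 0 := by
    rw [Complex.ofReal_ne_zero, norm_ne_zero_iff]
    exact sub_ne_zero.2 hne
  rw [div_eq_iff hn, mul_comm]
  exact h.2 t ht

theorem dir_cont {n : ℕ} (a b : Fin n) :
    ContinuousOn (dir a b : Ph n → ℂ) {z | z.1 a ≠ z.1 b} := by
  unfold dir
  refine ContinuousOn.div (Continuous.continuousOn (by fun_prop))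
    (Continuous.continuousOn (by fun_prop)) ?_
  intro z hz
  rw [Complex.ofReal_ne_zero, norm_ne_zero_iff]
  exact sub_ne_zero.2 hz

theorem dir_ne {n : ℕ} (a b : Fin n) {z : Ph n} (hz : z.1 a ≠ z.1 b) : dir a b z ≠ 0 := by
  unfold dir
  refine div_ne_zero (sub_ne_zero.2 hz) ?_
  rw [Complex.ofReal_ne_zero, norm_ne_zero_iff]
  exact sub_ne_zero.2 hz

theorem open_ne {n : ℕ} (a b : Fin n) : IsOpen {z : Ph n | z.1 a ≠ z.1 b} := by
  have h1 : Continuous fun z : Ph n => z.1 a := by fun_prop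
  have h2 : Continuous fun z : Ph n => z.1 b := by fun_prop
  exact isOpen_ne_fun h1 h2

/-- One integer relation between the winding numbers of two sides. -/
theorem relation {n : ℕ} {m : Fin n → ℝ} {x : ℝ → Ph n} (hx : IsSol m Set.univ x) {P : ℝ}
    (hP : 0 < P) (hper : ∀ t, x (t + P) = x t) (hst : LyapunovStable m (Set.range x))
    {a b c d : Fin n} (hab : a ≠ b) (hcd : c ≠ d) {α β : ℝ → ℝ}
    (hα : IsAngle x Set.univ a b α) (hβ : IsAngle x Set.univ c d β) {k₁ k₂ : ℤ}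
    (h1 : ∀ t, α (t + P) = α t + 2 * Real.pi * k₁) (h2 : ∀ t, β (t + P) = β t + 2 * Real.pi * k₂)
    (l₁ l₂ : ℤ) (hl : l₁ * k₁ + l₂ * k₂ = 0) :
    ∃ U : Set (Ph n), IsOpen U ∧ Set.range x ⊆ U ∧ ∃ C : ℝ, 0 ≤ C ∧
      ∀ y : ℝ → Ph n, IsSol m (Ici 0) y → y 0 ∈ U → ∀ ψ χ : ℝ → ℝ, IsAngle y (Ici 0) a b ψ →
        IsAngle y (Ici 0) c d χ → ∀ t : ℝ, 0 ≤ t →
          |l₁ * (ψ t - ψ 0) + l₂ * (χ t - χ 0)| ≤ C := by
  have hx' : Pool.Agent.W821.TB.IsSol m Set.univ x := hx
  have hxab : ∀ t, (x t).1 a ≠ (x t).1 b := fun t => (hx'.mem t).1 a b hab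
  have hxcd : ∀ t, (x t).1 c ≠ (x t).1 d := fun t => (hx'.mem t).1 c d hcd
  let O : Set (Ph n) := {z | z.1 a ≠ z.1 b} ∩ {z | z.1 c ≠ z.1 d}
  have hO : IsOpen O := (open_ne a b).inter (open_ne c d)
  let u : Ph n → ℂ := fun z => dir a b z ^ l₁ * dir c d z ^ l₂
  have hu : ContinuousOn u O := by
    refine ContinuousOn.mul ?_ ?_
    · exact ((dir_cont a b).mono inter_subset_left).zpow₀ l₁ fun z hz => Or.inl (dir_ne a b hz.1)
    · exact ((dir_cont c d).mono inter_subset_right).zpow₀ l₂ fun z hz => Or.inl (dir_ne c d hz.2)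
  have hαc : Continuous α := continuousOn_univ.1 hα.1
  have hβc : Continuous β := continuousOn_univ.1 hβ.1
  have huexp : ∀ (y : ℝ → Ph n) (J : Set ℝ) (ψ χ : ℝ → ℝ), IsAngle y J a b ψ → IsAngle y J c d χ →
      ∀ t ∈ J, (y t).1 a ≠ (y t).1 b → (y t).1 c ≠ (y t).1 d →
      u (y t) = Complex.exp (((l₁ * ψ t + l₂ * χ t : ℝ) : ℂ) * I) := by
    intro y J ψ χ hψ hχ t ht e1 e2
    simp only [u]
    rw [dir_of_angle hψ ht e1, dir_of_angle hχ ht e2, ← Complex.exp_int_mul, ← Complex.exp_int_mul,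
      ← Complex.exp_add]
    congr 1
    push_cast
    ring
  have hφc : Continuous (fun t => l₁ * α t + l₂ * β t) := by fun_prop
  have hφP : ∀ t, (fun t => l₁ * α t + l₂ * β t) (t + P) = (fun t => l₁ * α t + l₂ * β t) t := by
    intro t
    have hl' : (l₁ : ℝ) * k₁ + l₂ * k₂ = 0 := by exact_mod_cast hl
    simp only
    rw [h1, h2]
    linear_combination (2 * Real.pi) * hl'
  have huφ : ∀ t, u (x t) = Complex.exp ((((fun t => l₁ * α t + l₂ * β t) t : ℝ) : ℂ) * I) :=
    fun t => huexp x Set.univ α β hα hβ t (mem_univ _) (hxab t) (hxcd t)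
  obtain ⟨N, hN, hxN, C, hC0, hC⟩ := no_winding hx'.continuous hP hper hO
    (fun t => ⟨hxab t, hxcd t⟩) hu hφc huφ (phase_inj hx hP hφc hφP huφ)
  obtain ⟨U, hU, hxU, hstay⟩ := hst N hN hxN
  refine ⟨U, hU, hxU, C, hC0, ?_⟩
  intro y hy hyU ψ χ hψ hχ t ht
  have hyc : ContinuousOn y (Ici 0) := fun s hs => (hy s hs).2.continuousWithinAt
  have hyne : ∀ s, 0 ≤ s → ∀ e f : Fin n, e ≠ f → (y s).1 e ≠ (y s).1 f :=
    fun s hs e f hef => (hy s hs).1.1 e f hef
  have key := hC y hyc (fun s hs => hstay y hy hyU s hs) (fun s => l₁ * ψ s + l₂ * χ s)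
    (((continuousOn_const).mul hψ.1).add ((continuousOn_const).mul hχ.1))
    (fun s hs => huexp y (Ici 0) ψ χ hψ hχ s hs (hyne s hs a b hab) (hyne s hs c d hcd)) t ht
  have e : (l₁ : ℝ) * (ψ t - ψ 0) + l₂ * (χ t - χ 0) =
      (l₁ * ψ t + l₂ * χ t) - (l₁ * ψ 0 + l₂ * χ 0) := by ring
  rw [e]
  exact key

theorem compact_range {n : ℕ} {x : ℝ → Ph n} (hx : Continuous x) {P : ℝ} (hP : 0 < P)
    (hper : ∀ t, x (t + P) = x t) : IsCompact (Set.range x) := by
  have : Set.range x = x '' Icc (0 : ℝ) P := by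
    ext z
    constructor
    · rintro ⟨t, rfl⟩
      obtain ⟨s, hs, hst⟩ := Function.Periodic.exists_mem_Ico₀ (f := x) (c := P) hper hP t
      exact ⟨s, ⟨hs.1, hs.2.le⟩, hst.symm⟩
    · rintro ⟨s, -, rfl⟩
      exact ⟨s, rfl⟩
  rw [this]
  exact isCompact_Icc.image hx

theorem norm_dir {n : ℕ} (a b : Fin n) {z : Ph n} (hz : z.1 a ≠ z.1 b) : ‖dir a b z‖ = 1 := by
  unfold dir
  have : ‖z.1 a - z.1 b‖ ≠ 0 := norm_ne_zero_iff.2 (sub_ne_zero.2 hz)
  rw [norm_div, Complex.norm_real, norm_norm, div_self this]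

/-- Near the orbit every side turns, during one period of `x`, by nearly the same angle as for `x`. -/
theorem rate {n : ℕ} {m : Fin n → ℝ} {x : ℝ → Ph n} (hx : IsSol m Set.univ x) {P : ℝ}
    (hP : 0 < P) (hper : ∀ t, x (t + P) = x t) {a b : Fin n} (hab : a ≠ b) {θ : ℝ → ℝ}
    (hθ : IsAngle x Set.univ a b θ) {k : ℤ} (hk : ∀ t, θ (t + P) = θ t + 2 * Real.pi * k)
    {η : ℝ} (hη : 0 < η) :
    ∃ N : Set (Ph n), IsOpen N ∧ Set.range x ⊆ N ∧ ∃ B : ℝ, 0 ≤ B ∧
      ∀ y : ℝ → Ph n, IsSol m (Ici 0) y → ∀ ψ : ℝ → ℝ, IsAngle y (Ici 0) a b ψ →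
        ∀ t₀ : ℝ, 0 ≤ t₀ → y t₀ ∈ N →
          |ψ (t₀ + P) - ψ t₀ - 2 * Real.pi * k| ≤ η ∧
          ∀ t ∈ Icc t₀ (t₀ + P), |ψ t - ψ t₀ - 2 * Real.pi * k * ((t - t₀) / P)| ≤ B := by
  have hx' : Pool.Agent.W821.TB.IsSol m Set.univ x := hx
  have hγ : IsCompact (Set.range x) := compact_range hx'.continuous hP hper
  have hxab : ∀ t, (x t).1 a ≠ (x t).1 b := fun t => (hx'.mem t).1 a b hab
  have hθc : Continuous θ := continuousOn_univ.1 hθ.1
  obtain ⟨c, hc, hc1, harg⟩ := Pool.Agent.Helper83.Transport.arg_small (η := η / 2) (by positivity)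
  obtain ⟨ε, hε, hnear⟩ := Pool.Agent.Helper83.Transport.uniform_near hγ (open_ne a b)
    (by rintro z ⟨t, rfl⟩; exact hxab t) (dir_cont a b) hc
  obtain ⟨δ, hδ, htr⟩ := Pool.Agent.Helper83.Transport.transport hx' hP hγ hε
  -- the periodic part of the angle
  have hFP : ∀ t, θ (t + P) - 2 * Real.pi * k * ((t + P) / P) = θ t - 2 * Real.pi * k * (t / P) := by
    intro t
    rw [hk]
    field_simp
    ring
  have hFc : Continuous (fun t => θ t - 2 * Real.pi * k * (t / P)) := by fun_prop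
  obtain ⟨M, hM⟩ := isCompact_Icc.exists_bound_of_continuousOn (s := Icc (0 : ℝ) P)
    (f := fun t => θ t - 2 * Real.pi * k * (t / P)) hFc.continuousOn
  have hM0 : 0 ≤ M := (norm_nonneg _).trans (hM 0 ⟨le_rfl, hP.le⟩)
  have hMall : ∀ t, |θ t - 2 * Real.pi * k * (t / P)| ≤ M := by
    intro t
    obtain ⟨r, hr, hrt⟩ := Function.Periodic.exists_mem_Ico₀
      (f := fun t => θ t - 2 * Real.pi * k * (t / P)) (c := P) hFP hP t
    have hrt' : θ t - 2 * Real.pi * k * (t / P) = θ r - 2 * Real.pi * k * (r / P) := hrt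
    rw [hrt']
    exact hM r ⟨hr.1, hr.2.le⟩
  refine ⟨Metric.thickening δ (Set.range x), Metric.isOpen_thickening,
    Metric.self_subset_thickening hδ _, 2 * M + η, by positivity, ?_⟩
  intro y hy ψ hψ t₀ ht₀ hyN
  obtain ⟨z, ⟨s, rfl⟩, hs⟩ := Metric.mem_thickening_iff.1 hyN
  have hclose := htr y hy t₀ ht₀ s hs
  set σ : ℝ := s - t₀ with hσ
  let g : ℝ → ℝ := fun t => ψ t - θ (t + σ)
  have hsub : Icc t₀ (t₀ + P) ⊆ Ici 0 := fun t ht => mem_Ici.2 (ht₀.trans ht.1)
  have hgc : ContinuousOn g (Icc t₀ (t₀ + P)) :=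
    (hψ.1.mono hsub).sub (Continuous.continuousOn (by fun_prop))
  have hR : ∀ t ∈ Icc t₀ (t₀ + P), ‖Complex.exp ((g t : ℂ) * I) - 1‖ < c := by
    intro t ht
    obtain ⟨h1, h2⟩ := hnear (x (t + σ)) ⟨_, rfl⟩ (y t) (hclose t ht)
    have e1 := dir_of_angle hψ (hsub ht) h1
    have e2 := dir_of_angle hθ (mem_univ (t + σ)) (hxab _)
    have hne : dir a b (x (t + σ)) ≠ 0 := dir_ne a b (hxab _)
    have e3 : Complex.exp ((g t : ℂ) * I) = dir a b (y t) / dir a b (x (t + σ)) := by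
      rw [e1, e2, ← Complex.exp_sub]
      congr 1
      simp only [g]
      push_cast
      ring
    have e4 : Complex.exp ((g t : ℂ) * I) - 1 =
        (dir a b (y t) - dir a b (x (t + σ))) / dir a b (x (t + σ)) := by
      rw [e3, sub_div, div_self hne]
    rw [e4, norm_div, norm_dir a b (hxab _), div_one]
    exact h2
  have hslit : ∀ t ∈ Icc t₀ (t₀ + P), Complex.exp ((g t : ℂ) * I) ∈ Complex.slitPlane := by
    intro t ht
    left
    have h2 := (Complex.abs_re_le_norm (Complex.exp ((g t : ℂ) * I) - 1)).trans_lt (hR t ht)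
    rw [Complex.sub_re, Complex.one_re] at h2
    have := (abs_lt.1 h2).1
    linarith
  have hargc : ContinuousOn (fun t => Complex.arg (Complex.exp ((g t : ℂ) * I)))
      (Icc t₀ (t₀ + P)) := by
    intro t ht
    have h1 : ContinuousWithinAt (fun t => Complex.exp ((g t : ℂ) * I)) (Icc t₀ (t₀ + P)) t := by
      have := hgc t ht
      fun_prop
    exact ContinuousAt.comp_continuousWithinAt (f := fun t => Complex.exp ((g t : ℂ) * I))
      (g := Complex.arg) (Complex.continuousAt_arg (hslit t ht)) h1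
  have hexp : ∀ t ∈ Icc t₀ (t₀ + P),
      Complex.exp (((g t - Complex.arg (Complex.exp ((g t : ℂ) * I)) : ℝ) : ℂ) * I) = 1 := by
    intro t _
    have hnorm : ‖Complex.exp ((g t : ℂ) * I)‖ = 1 := Complex.norm_exp_ofReal_mul_I _
    have h2 := Complex.norm_mul_exp_arg_mul_I (Complex.exp ((g t : ℂ) * I))
    rw [hnorm, Complex.ofReal_one, one_mul] at h2
    push_cast
    rw [sub_mul, Complex.exp_sub, h2, div_self (Complex.exp_ne_zero _)]
  have hmem0 : t₀ ∈ Icc t₀ (t₀ + P) := ⟨le_rfl, by linarith⟩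
  have hmemP : t₀ + P ∈ Icc t₀ (t₀ + P) := ⟨by linarith, le_rfl⟩
  have hconst : ∀ t ∈ Icc t₀ (t₀ + P), ψ t - ψ t₀ = (θ (t + σ) - θ (t₀ + σ)) +
      (Complex.arg (Complex.exp ((g t : ℂ) * I)) - Complex.arg (Complex.exp ((g t₀ : ℂ) * I))) := by
    intro t ht
    have h1 := const_of_exp isPreconnected_Icc (hgc.sub hargc) hexp ht hmem0
    have h2 : g t - Complex.arg (Complex.exp ((g t : ℂ) * I)) =
        g t₀ - Complex.arg (Complex.exp ((g t₀ : ℂ) * I)) := h1
    have h3 : g t = ψ t - θ (t + σ) := rfl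
    have h4 : g t₀ = ψ t₀ - θ (t₀ + σ) := rfl
    rw [← sub_eq_zero] at h2 ⊢
    have h5 : ψ t - ψ t₀ = (g t + θ (t + σ)) - (g t₀ + θ (t₀ + σ)) := by rw [h3, h4]; ring
    rw [h5]
    linear_combination h2
  have harg0 := harg _ (hR t₀ hmem0)
  refine ⟨?_, ?_⟩
  · have h1 := hconst _ hmemP
    have h2 := harg _ (hR _ hmemP)
    have h3 : θ (t₀ + P + σ) = θ (t₀ + σ) + 2 * Real.pi * k := by
      rw [← hk]; congr 1; ring
    rw [h3] at h1
    rw [h1]
    rw [abs_lt] at h2 harg0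
    rw [abs_le]
    constructor <;> linarith [h2.1, h2.2, harg0.1, harg0.2]
  · intro t ht
    have h1 := hconst t ht
    have h2 := harg _ (hR t ht)
    have h3 := hMall (t + σ)
    have h4 := hMall (t₀ + σ)
    have e : ψ t - ψ t₀ - 2 * Real.pi * k * ((t - t₀) / P) =
        (θ (t + σ) - 2 * Real.pi * k * ((t + σ) / P)) -
          (θ (t₀ + σ) - 2 * Real.pi * k * ((t₀ + σ) / P)) +
        (Complex.arg (Complex.exp ((g t : ℂ) * I)) -
          Complex.arg (Complex.exp ((g t₀ : ℂ) * I))) := by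
      rw [h1]; ring
    rw [e]
    rw [abs_lt] at h2 harg0
    rw [abs_le] at h3 h4 ⊢
    constructor <;> linarith [h2.1, h2.2, harg0.1, harg0.2, h3.1, h3.2, h4.1, h4.2]

/-- The mean rate at which a side turns is nearly the same for all solutions near the orbit. -/
theorem rate_global {n : ℕ} {m : Fin n → ℝ} {x : ℝ → Ph n} (hx : IsSol m Set.univ x) {P : ℝ}
    (hP : 0 < P) (hper : ∀ t, x (t + P) = x t) (hst : LyapunovStable m (Set.range x))
    {a b : Fin n} (hab : a ≠ b) {θ : ℝ → ℝ}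
    (hθ : IsAngle x Set.univ a b θ) {k : ℤ} (hk : ∀ t, θ (t + P) = θ t + 2 * Real.pi * k)
    {η : ℝ} (hη : 0 < η) :
    ∃ U : Set (Ph n), IsOpen U ∧ Set.range x ⊆ U ∧ ∃ B : ℝ, 0 ≤ B ∧
      ∀ y : ℝ → Ph n, IsSol m (Ici 0) y → y 0 ∈ U → ∀ ψ : ℝ → ℝ, IsAngle y (Ici 0) a b ψ →
        ∀ t : ℝ, 0 ≤ t → |ψ t - ψ 0 - 2 * Real.pi * k * (t / P)| ≤ η * t + B := by
  obtain ⟨N, hN, hxN, B, hB, h⟩ := rate hx hP hper hab hθ hk (η := η * P) (by positivity)
  obtain ⟨U, hU, hxU, hstay⟩ := hst N hN hxN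
  refine ⟨U, hU, hxU, B, hB, ?_⟩
  intro y hy hyU ψ hψ t ht
  have hyN := hstay y hy hyU
  have hstep : ∀ j : ℕ, |ψ (j * P) - ψ 0 - 2 * Real.pi * k * j| ≤ η * P * j := by
    intro j
    induction j with
    | zero => simp
    | succ j ih =>
      have h0 : (0 : ℝ) ≤ j * P := by positivity
      have h1 := (h y hy ψ hψ (j * P) h0 (hyN _ h0)).1
      have e : ψ (((j + 1 : ℕ) : ℝ) * P) - ψ 0 - 2 * Real.pi * k * ((j + 1 : ℕ) : ℝ) =
          (ψ (j * P + P) - ψ (j * P) - 2 * Real.pi * k) + (ψ (j * P) - ψ 0 - 2 * Real.pi * k * j) := by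
        push_cast
        rw [show ((j : ℝ) + 1) * P = j * P + P by ring]
        ring
      rw [e]
      refine (abs_add_le _ _).trans ?_
      push_cast
      linarith
  set j : ℕ := ⌊t / P⌋₊ with hj
  have htP : 0 ≤ t / P := by positivity
  have hj1 : (j : ℝ) * P ≤ t := by
    have := Nat.floor_le htP
    rwa [← hj, le_div_iff₀ hP] at this
  have hj2 : t ≤ j * P + P := by
    have := (Nat.lt_floor_add_one (t / P)).le
    rw [← hj, div_le_iff₀ hP] at this
    linarith
  have h0 : (0 : ℝ) ≤ j * P := by positivity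
  have h2 := (h y hy ψ hψ (j * P) h0 (hyN _ h0)).2 t ⟨hj1, hj2⟩
  have h3 := hstep j
  have e : ψ t - ψ 0 - 2 * Real.pi * k * (t / P) =
      (ψ t - ψ (j * P) - 2 * Real.pi * k * ((t - j * P) / P)) +
        (ψ (j * P) - ψ 0 - 2 * Real.pi * k * j) := by
    field_simp
    ring
  rw [e]
  refine (abs_add_le _ _).trans ?_
  have h4 : η * P * j ≤ η * t := by
    calc η * P * j = η * (j * P) := by ring
      _ ≤ η * t := mul_le_mul_of_nonneg_left hj1 hη.le
  linarith

/-- The first part of the theorem. -/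
theorem result_aux {n : ℕ} {m : Fin n → ℝ} {x : ℝ → Ph n} (hx : IsSol m Set.univ x) {P : ℝ}
    (hP : 0 < P) (hper : ∀ t, x (t + P) = x t) (hst : LyapunovStable m (Set.range x))
    {θ : Fin n → Fin n → ℝ → ℝ} (hθ : ∀ a b, a ≠ b → IsAngle x Set.univ a b (θ a b)) :
    ∃ k : Fin n → Fin n → ℤ,
      (∀ a b, a ≠ b → ∀ t, θ a b (t + P) = θ a b t + 2 * Real.pi * k a b) ∧
      ∀ η : ℝ, 0 < η → ∃ U : Set (Ph n), IsOpen U ∧ Set.range x ⊆ U ∧ ∃ C : ℝ,
        ∀ y : ℝ → Ph n, IsSol m (Ici 0) y → y 0 ∈ U → ∀ ψ : Fin n → Fin n → ℝ → ℝ,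
          (∀ a b, a ≠ b → IsAngle y (Ici 0) a b (ψ a b)) →
          ∃ N : ℝ → ℝ, (∀ t : ℝ, 0 ≤ t → |N t - t / P| ≤ η * t + C) ∧
            ∀ t : ℝ, 0 ≤ t → ∀ a b, a ≠ b →
              |ψ a b t - ψ a b 0 - 2 * Real.pi * k a b * N t| ≤ C := by
  classical
  have hx' : Pool.Agent.W821.TB.IsSol m Set.univ x := hx
  -- the winding numbers
  have hwind : ∀ a b, a ≠ b → ∃ j : ℤ, ∀ t, θ a b (t + P) = θ a b t + 2 * Real.pi * j := by
    intro a b hab
    have hc : Continuous (θ a b) := continuousOn_univ.1 (hθ a b hab).1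
    have hexp : ∀ t, Complex.exp (((θ a b (t + P) - θ a b t : ℝ) : ℂ) * I) = 1 := by
      intro t
      have e1 := dir_of_angle (hθ a b hab) (mem_univ (t + P)) ((hx'.mem (t + P)).1 a b hab)
      have e2 := dir_of_angle (hθ a b hab) (mem_univ t) ((hx'.mem t).1 a b hab)
      rw [hper, e2] at e1
      push_cast
      rw [sub_mul, Complex.exp_sub, ← e1, div_self (Complex.exp_ne_zero _)]
    obtain ⟨j, hj⟩ := Complex.exp_eq_one_iff.1 (hexp 0)
    have hj' : θ a b (0 + P) - θ a b 0 = j * (2 * Real.pi) := by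
      have : ((θ a b (0 + P) - θ a b 0 : ℝ) : ℂ) = ((j * (2 * Real.pi) : ℝ) : ℂ) := by
        apply mul_right_cancel₀ I_ne_zero
        rw [hj]; push_cast; ring
      exact_mod_cast this
    refine ⟨j, fun t => ?_⟩
    have := const_of_exp (f := fun t => θ a b (t + P) - θ a b t) isPreconnected_univ
      (Continuous.continuousOn (by fun_prop)) (fun t _ => hexp t) (mem_univ t) (mem_univ 0)
    have this' : θ a b (t + P) - θ a b t = θ a b (0 + P) - θ a b 0 := this
    linarith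
  have hk : ∃ k : Fin n → Fin n → ℤ, ∀ a b, a ≠ b → ∀ t,
      θ a b (t + P) = θ a b t + 2 * Real.pi * k a b := by
    refine ⟨fun a b => if h : a ≠ b then (hwind a b h).choose else 0, fun a b hab t => ?_⟩
    simp only [dif_pos hab]
    exact (hwind a b hab).choose_spec t
  obtain ⟨k, hk⟩ := hk
  refine ⟨k, hk, fun η hη => ?_⟩
  have hpi := Real.pi_gt_three
  by_cases hall : ∃ c d, c ≠ d ∧ k c d ≠ 0
  · obtain ⟨c, d, hcd, hk0⟩ := hall
    have key : ∀ p : Fin n × Fin n, ∃ U : Set (Ph n), IsOpen U ∧ Set.range x ⊆ U ∧ ∃ C : ℝ, 0 ≤ C ∧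
        (p.1 ≠ p.2 → ∀ y : ℝ → Ph n, IsSol m (Ici 0) y → y 0 ∈ U → ∀ ψ χ : ℝ → ℝ,
          IsAngle y (Ici 0) p.1 p.2 ψ → IsAngle y (Ici 0) c d χ → ∀ t : ℝ, 0 ≤ t →
          |(k c d : ℝ) * (ψ t - ψ 0) + ((-k p.1 p.2 : ℤ) : ℝ) * (χ t - χ 0)| ≤ C) := by
      intro p
      by_cases hp : p.1 ≠ p.2
      · obtain ⟨U, h1, h2, C, h3, h4⟩ := relation hx hP hper hst hp hcd (hθ _ _ hp) (hθ _ _ hcd)
          (hk _ _ hp) (hk _ _ hcd) (k c d) (-k p.1 p.2) (by ring)
        exact ⟨U, h1, h2, C, h3, fun _ => h4⟩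
      · exact ⟨univ, isOpen_univ, subset_univ _, 0, le_rfl, fun h => absurd h hp⟩
    choose U hU hxU C hC0 hC using key
    obtain ⟨U', hU', hxU', B, hB0, hB⟩ := rate_global hx hP hper hst hcd (hθ _ _ hcd)
      (hk _ _ hcd) hη
    refine ⟨(⋂ p, U p) ∩ U', (isOpen_iInter_of_finite hU).inter hU',
      subset_inter (subset_iInter hxU) hxU', ∑ p, C p + B, ?_⟩
    intro y hy hyU ψ hψ
    have hkr : (k c d : ℝ) ≠ 0 := by exact_mod_cast hk0
    have hk1 : (1 : ℝ) ≤ |(k c d : ℝ)| := by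
      have : (1 : ℤ) ≤ |k c d| := Int.one_le_abs hk0
      exact_mod_cast this
    have hC1 : 0 ≤ ∑ p, C p := Finset.sum_nonneg fun p _ => hC0 p
    refine ⟨fun t => (ψ c d t - ψ c d 0) / (2 * Real.pi * k c d), fun t ht => ?_,
      fun t ht a b hab => ?_⟩
    · have h1 := hB y hy hyU.2 (ψ c d) (hψ c d hcd) t ht
      have e : (ψ c d t - ψ c d 0) / (2 * Real.pi * k c d) - t / P =
          (ψ c d t - ψ c d 0 - 2 * Real.pi * k c d * (t / P)) / (2 * Real.pi * k c d) := by
        field_simp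
      have h2 : 1 ≤ |2 * Real.pi * (k c d : ℝ)| := by
        rw [abs_mul, abs_of_pos (by positivity : (0 : ℝ) < 2 * Real.pi)]
        nlinarith
      have h3 : |(ψ c d t - ψ c d 0) / (2 * Real.pi * k c d) - t / P| ≤ η * t + B := by
        rw [e, abs_div]
        exact (div_le_self (abs_nonneg _) h2).trans h1
      linarith
    have h1 := hC (a, b) hab y hy (mem_iInter.1 hyU.1 (a, b)) (ψ a b) (ψ c d) (hψ a b hab)
      (hψ c d hcd) t ht
    have hle : C (a, b) ≤ ∑ p, C p :=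
      Finset.single_le_sum (f := C) (fun p _ => hC0 p) (Finset.mem_univ (a, b))
    have e : ψ a b t - ψ a b 0 - 2 * Real.pi * k a b * ((ψ c d t - ψ c d 0) / (2 * Real.pi * k c d)) =
        ((k c d : ℝ) * (ψ a b t - ψ a b 0) + ((-k a b : ℤ) : ℝ) * (ψ c d t - ψ c d 0)) / k c d := by
      push_cast
      field_simp
      ring
    rw [e, abs_div]
    refine (div_le_self (abs_nonneg _) hk1).trans (h1.trans (by linarith))
  · push Not at hall
    have key : ∀ p : Fin n × Fin n, ∃ U : Set (Ph n), IsOpen U ∧ Set.range x ⊆ U ∧ ∃ C : ℝ, 0 ≤ C ∧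
        (p.1 ≠ p.2 → ∀ y : ℝ → Ph n, IsSol m (Ici 0) y → y 0 ∈ U → ∀ ψ χ : ℝ → ℝ,
          IsAngle y (Ici 0) p.1 p.2 ψ → IsAngle y (Ici 0) p.1 p.2 χ → ∀ t : ℝ, 0 ≤ t →
          |((1 : ℤ) : ℝ) * (ψ t - ψ 0) + ((0 : ℤ) : ℝ) * (χ t - χ 0)| ≤ C) := by
      intro p
      by_cases hp : p.1 ≠ p.2
      · obtain ⟨U, h1, h2, C, h3, h4⟩ := relation hx hP hper hst hp hp (hθ _ _ hp) (hθ _ _ hp)
          (hk _ _ hp) (hk _ _ hp) 1 0 (by simp [hall _ _ hp])
        exact ⟨U, h1, h2, C, h3, fun _ => h4⟩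
      · exact ⟨univ, isOpen_univ, subset_univ _, 0, le_rfl, fun h => absurd h hp⟩
    choose U hU hxU C hC0 hC using key
    refine ⟨⋂ p, U p, isOpen_iInter_of_finite hU, subset_iInter hxU, ∑ p, C p, ?_⟩
    intro y hy hyU ψ hψ
    have hC1 : 0 ≤ ∑ p, C p := Finset.sum_nonneg fun p _ => hC0 p
    refine ⟨fun t => t / P, fun t ht => ?_, fun t ht a b hab => ?_⟩
    · rw [sub_self, abs_zero]
      positivity
    have h1 := hC (a, b) hab y hy (mem_iInter.1 hyU (a, b)) (ψ a b) (ψ a b) (hψ a b hab)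
      (hψ a b hab) t ht
    have hle : C (a, b) ≤ ∑ p, C p :=
      Finset.single_le_sum (f := C) (fun p _ => hC0 p) (Finset.mem_univ (a, b))
    simp only [Int.cast_one, one_mul, Int.cast_zero, zero_mul, add_zero] at h1
    rw [hall a b hab, Int.cast_zero, mul_zero, zero_mul, sub_zero]
    exact h1.trans hle

/-- **The directions of the sides are locked near a Lyapunov stable orbit.**  Let `x` be a solution
of the planar `n`-body problem of period `P > 0` whose orbit is Lyapunov stable in the centre of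
mass frame, `θ a b` continuous angles of its sides `q_a - q_b` and `2 π k a b` the increase of
`θ a b` in the time `P` (`k a b` is an integer).  For every `η > 0` there are a neighbourhood `U` of
the orbit and a constant `C` such that for every solution `y` on `[0, ∞)` that starts in `U` and all
continuous angles `ψ a b` of its sides

* there is a function `N` with `|N t - t / P| ≤ η t + C` and
  `|ψ a b t - ψ a b 0 - 2 π k a b N t| ≤ C` for all sides and all `t ≥ 0`;
* if two sides have mean rates `ω = lim ψ a b t / t`, `ω' = lim ψ c d t / t` then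
  `k c d * ω = k a b * ω'`. -/
theorem result {n : ℕ} {m : Fin n → ℝ} {x : ℝ → Ph n} (hx : IsSol m Set.univ x) {P : ℝ}
    (hP : 0 < P) (hper : ∀ t, x (t + P) = x t) (hst : LyapunovStable m (Set.range x))
    {θ : Fin n → Fin n → ℝ → ℝ} (hθ : ∀ a b, a ≠ b → IsAngle x Set.univ a b (θ a b)) :
    ∃ k : Fin n → Fin n → ℤ,
      (∀ a b, a ≠ b → ∀ t, θ a b (t + P) = θ a b t + 2 * Real.pi * k a b) ∧
      ∀ η : ℝ, 0 < η → ∃ U : Set (Ph n), IsOpen U ∧ Set.range x ⊆ U ∧ ∃ C : ℝ,
        ∀ y : ℝ → Ph n, IsSol m (Ici 0) y → y 0 ∈ U → ∀ ψ : Fin n → Fin n → ℝ → ℝ,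
          (∀ a b, a ≠ b → IsAngle y (Ici 0) a b (ψ a b)) →
          (∃ N : ℝ → ℝ, (∀ t : ℝ, 0 ≤ t → |N t - t / P| ≤ η * t + C) ∧
            ∀ t : ℝ, 0 ≤ t → ∀ a b, a ≠ b →
              |ψ a b t - ψ a b 0 - 2 * Real.pi * k a b * N t| ≤ C) ∧
          (∀ a b c d, a ≠ b → c ≠ d → ∀ ω ω' : ℝ,
            Tendsto (fun t => ψ a b t / t) atTop (𝓝 ω) →
            Tendsto (fun t => ψ c d t / t) atTop (𝓝 ω') → k c d * ω = k a b * ω') := by
  classical
  obtain ⟨k, hk, hmain⟩ := result_aux hx hP hper hst hθ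
  refine ⟨k, hk, fun η hη => ?_⟩
  obtain ⟨U, hU, hxU, C, h⟩ := hmain η hη
  refine ⟨U, hU, hxU, C, fun y hy hyU ψ hψ => ?_⟩
  obtain ⟨N, hN1, hN2⟩ := h y hy hyU ψ hψ
  refine ⟨⟨N, hN1, hN2⟩, ?_⟩
  intro a b c d hab hcd ω ω' h1 h2
  -- the combination `k c d ψ a b - k a b ψ c d` is bounded
  set A : ℝ := |(k c d : ℝ)| * C + |(k a b : ℝ)| * C +
    |k c d * ψ a b 0 - k a b * ψ c d 0| with hA
  have hbd : ∀ t : ℝ, 0 ≤ t → |k c d * ψ a b t - k a b * ψ c d t| ≤ A := by
    intro t ht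
    have e : (k c d : ℝ) * ψ a b t - k a b * ψ c d t =
        k c d * (ψ a b t - ψ a b 0 - 2 * Real.pi * k a b * N t) +
        (-(k a b : ℝ)) * (ψ c d t - ψ c d 0 - 2 * Real.pi * k c d * N t) +
        (k c d * ψ a b 0 - k a b * ψ c d 0) := by ring
    rw [e]
    refine (abs_add_le _ _).trans ?_
    refine add_le_add ((abs_add_le _ _).trans ?_) le_rfl
    rw [abs_mul, abs_mul, abs_neg]
    exact add_le_add (mul_le_mul_of_nonneg_left (hN2 t ht a b hab) (abs_nonneg _))
      (mul_le_mul_of_nonneg_left (hN2 t ht c d hcd) (abs_nonneg _))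
  have h3 : Tendsto (fun t : ℝ => k c d * (ψ a b t / t) - k a b * (ψ c d t / t)) atTop
      (𝓝 (k c d * ω - k a b * ω')) := (h1.const_mul _).sub (h2.const_mul _)
  have h4 : Tendsto (fun t : ℝ => k c d * (ψ a b t / t) - k a b * (ψ c d t / t)) atTop (𝓝 0) := by
    refine squeeze_zero_norm' (a := fun t : ℝ => A / t) ?_ (tendsto_const_nhds.div_atTop tendsto_id)
    filter_upwards [eventually_gt_atTop (0 : ℝ)] with t ht
    have e : (k c d : ℝ) * (ψ a b t / t) - k a b * (ψ c d t / t) =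
        (k c d * ψ a b t - k a b * ψ c d t) / t := by ring
    rw [e, Real.norm_eq_abs, abs_div, abs_of_pos ht]
    exact div_le_div_of_nonneg_right (hbd t ht.le) ht.le
  have := tendsto_nhds_unique h3 h4
  linarith

end Pool.Agent.Results.MP_5027f4_mp.LockedSides
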